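import Pool.Agent.L0h26.H1.A1

/-!
# H1: the classes `5` modulo `8`
-/

set_option autoImplicit false
set_option linter.unusedSectionVars false

namespace Pool.Agent.L0h84.H1

open Pool.Agent.Y698 Pool.Agent.Y698.SG Pool.Agent.L0h4.TW
open Pool.Agent.L0h23.ED (kn kl kb k7 S_R2 C5 r8 r8_aR dvd_a3)
open Pool.Agent.L0h75.H1
open Pool.Agent.L0h23.AW (two0 lin1)
open Pool.Agent.L0h26.H1 (prod_pfx sum_ind c5_g e7_k7 ns_ker sy_one')

lemma ar5 : ∀ (s y : Bool) (c : ZMod 8) (l : ZMod 2), C5 c l →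
    ((if s then -1 else 1) * (if y then 6 else 1) * c = 1 ∨
      (if s then -1 else 1) * (if y then 6 else 1) * c = 5) → s = false ∧ y = false := by
  intro s y c l hc
  unfold C5 at hc
  rcases hc with ⟨rfl, rfl⟩ | ⟨rfl, rfl⟩ <;> revert s y <;> decide

lemma r8_st {δ : RR} (h : aR ^ 2 ∣ δ - 1) : r8 δ = 1 ∨ r8 δ = 5 := by
  obtain ⟨t, ht⟩ := h
  have h1 : δ = 1 + aR ^ 2 * t := by linear_combination ht
  rw [h1, map_add, map_mul, map_pow, map_one, r8_aR]
  generalize r8 t = w
  revert w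
  decide

theorem t_A5 : Pool.Agent.L0h75.H1.S_A5 := by
  classical
  intro r2 hFAC hEQJ hEQ7 _ Q S ϖ h hD hns δ hsel
  set D := ∏ p ∈ Q ∪ S, p with hDd
  have hprod : ∏ i ∈ ix Q S, pfx Q ϖ i = (D : RR) := prod_pfx h (by rw [← hDd]; omega)
  have hK : Kap (1 : RR) 0 := Or.inl ⟨rfl, Or.inl rfl⟩
  have hm : -fR * (D : RR) = mK Q S ϖ 1 := by
    unfold mK
    rw [hprod, one_mul]
  have hmg : mK Q S ϖ 1 = gg false true false false * ∏ i ∈ ix Q S, pfx Q ϖ i := by
    unfold mK gg
    simp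
  rw [hm] at hsel ⊢
  obtain ⟨s, e, y, z, T, hT, hδ⟩ := hFAC Q S ϖ h 1 δ 0 hK hsel.odd
  have hodd := hsel.odd
  rw [hδ] at hodd
  have hJ := hEQJ r2 Q S ϖ h 1 0 hK s e y z T hT hodd
  have h7 := hEQ7 Q S ϖ h 1 0 hK s e y z T hT hodd
  -- the relaxed place
  have hz : z = false := by
    cases z
    · rfl
    · exfalso
      apply hsel.ev
      rw [hδ]
      unfold gg
      refine Dvd.dvd.mul_right (Dvd.dvd.mul_left ?_ _) _
      simp only [if_true]
      exact ⟨-1, by ring⟩
  -- the strict place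
  have hsy : s = false ∧ y = false := by
    obtain ⟨c, l, hc, hr⟩ := c5_g h hT s e y z
    rw [← hδ] at hr
    refine ar5 s y c l hc ?_
    rw [← hr]
    exact r8_st hsel.st
  obtain ⟨rfl, rfl⟩ := hsy
  subst hz
  have hn : ∑ i ∈ ix Q S, kn (pfx Q ϖ) i = 0 := by
    have h2 := h.ntsum
    rw [Finset.sum_congr rfl fun i hi => by rw [h.pf hi]] at h2
    exact h2
  have hb : b2 false = 0 := rfl
  have key := lin1 (I := ix Q S) (n := kn (pfx Q ϖ)) (lb := fun _ => (0 : ZMod 2))
    (m7 := k7 (pfx Q ϖ)) (p := fun i => k7 (pfx Q ϖ) i + kn (pfx Q ϖ) i)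
    (m := mr (pfx Q ϖ)) hn (fun i _ => rfl) (Pool.Agent.L0h61.EV.Dt.recp h)
    (Finset.sum_const_zero)
    (z := 0) (e := b2 e) (x := fun i => if i ∈ T then 1 else 0) (fun j hj => ?_) ?_
  · obtain ⟨-, k2⟩ := key
    have k3 : ∀ i ∈ ix Q S, (if i ∈ T then 1 else 0) + b2 e = 0 := by
      refine ns_ker hns (v := fun i => (if i ∈ T then 1 else 0) + b2 e) fun j hj => ?_
      rw [e7_k7 h hj]
      exact k2 j hj
    rw [hδ, hmg]
    cases e
    · left
      have hT0 : T = ∅ := by
        rw [Finset.eq_empty_iff_forall_notMem]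
        intro i hi
        have h5 := k3 i (hT hi)
        rw [hb, add_zero, if_pos hi] at h5
        exact absurd h5 (by decide)
      rw [hT0]
      unfold gg
      simp
    · right
      have hb1 : b2 true = 1 := rfl
      have hT1 : T = ix Q S := by
        refine Finset.Subset.antisymm hT fun i hi => ?_
        by_contra hc
        have h5 := k3 i hi
        rw [hb1, if_neg hc] at h5
        exact absurd h5 (by decide)
      rw [hT1]
  · -- the equations at the odd places
    have h5 := hJ j hj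
    rw [sy_one' (h.fx.pd j hj).pr, lg_one, hb] at h5
    linear_combination h5
  · -- the equation at `√-7`
    rw [hb] at h7
    have h6 := sum_ind hT (fun i => k7 (pfx Q ϖ) i + kn (pfx Q ϖ) i)
    linear_combination h7 + h6

end Pool.Agent.L0h84.H1
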